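import Pool.Agent.H.MP_e3b71d_lc.Core

namespace Pool.Agent.Results.MP_e3b71d_lc.Equal
open Finset Function Classical Pool.Agent.H.MP_e3b71d_lc

variable {n m : ℕ} (ψ : Fin n → Fin (m + 1) → ℝ)

def Win (v : Pf n m) (k : Fin n) : Prop :=
  0 < ψ k (v k) ∧ ∀ j, j ≠ k → toLex (ψ j (v j), j) < toLex (ψ k (v k), k)

noncomputable def al (v : Pf n m) : Option (Fin n) := if h : ∃ k, Win ψ v k then some h.choose else none

theorem al_iff {v k} : al ψ v = some k ↔ Win ψ v k := by
  have u : ∀ {k l}, Win ψ v k → Win ψ v l → k = l := fun {k l} a b => by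
    by_contra h
    exact lt_asymm (a.2 l (Ne.symm h)) (b.2 k h)
  unfold al
  split_ifs with h
  · exact ⟨fun e => Option.some.inj e ▸ h.choose_spec, fun e => congrArg some (u h.choose_spec e)⟩
  · exact iff_of_false (by simp) fun e => h ⟨k, e⟩

theorem win_of_le {v k x y} (h : ψ k x ≤ ψ k y) (a : Win ψ (update v k x) k) : Win ψ (update v k y) k := by
  refine ⟨by simpa using a.1.trans_le (by simpa using h), fun j hj => ?_⟩
  have := a.2 j hj
  simp only [update_self, update_of_ne hj] at this ⊢
  exact this.trans_le (Prod.Lex.toLex_le_toLex.2 (h.lt_or_eq.imp id fun e => ⟨e, le_rfl⟩))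

theorem al_thr (hψ : ∀ k, Monotone (ψ k)) {v k x} : al ψ (update v k x) = some k ↔ thr (al ψ) k v ≤ x := by
  refine ⟨thr_le, fun h => ?_⟩
  obtain ⟨y, y1, y2⟩ := (thr_spec (al ψ) k v).resolve_left (by have := x.2; omega)
  exact (al_iff ψ).2 (win_of_le ψ (hψ k (show y ≤ x by rw [Fin.le_def]; omega)) ((al_iff ψ).1 y2))

noncomputable def opt : Mech n m where
  f := al ψ
  p v k := if al ψ v = some k then (thr (al ψ) k v : ℝ) / m else 0
  ir v k := by
    split_ifs with h
    · exact div_le_div_of_nonneg_right (Nat.cast_le.2 (thr_le (by simpa using h))) (Nat.cast_nonneg _)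
    · rfl
  npt v k := by split_ifs <;> positivity

theorem opt_truthful (hψ : ∀ k, Monotone (ψ k)) : Truthful (opt ψ) := fun v i x => by
  have a := profit_nonneg (opt ψ) v i
  have b : al ψ v = some i ↔ thr (al ψ) i v ≤ v i := by simpa using al_thr ψ hψ (v := v) (k := i) (x := v i)
  simp only [profit, opt, thr_update] at a ⊢
  split_ifs at a ⊢ with h1 h2 h2
  · rfl
  · have : val (v i) ≤ (thr (al ψ) i v : ℝ) / m :=
      div_le_div_of_nonneg_right (Nat.cast_le.2 (not_le.1 (mt b.2 h2)).le) (Nat.cast_nonneg _)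
    linarith
  · linarith
  · rfl

theorem result (n m : ℕ) (_hm : 1 ≤ m) (F : Fin n → Fin (m + 1) → ℝ) (hF : ∀ i x, 0 < F i x)
    (h1 : ∀ i, ∑ x, F i x = 1) :
    ∃ T : Mech n m, Truthful T ∧ ∀ α : ℝ, 0 ≤ α → α ≤ 1 → ∀ M : Mech n m, Moral α M → Rev F M ≤ Rev F T := by
  choose ψ hψ hP using fun k => iron (hF k) (fun p => (p : ℝ) / m * tail (F k) p) (by simp [tail_top])
  refine ⟨opt ψ, opt_truthful ψ hψ, fun α _ hα M hM => ?_⟩
  let β : Pf n m → ℝ := fun v => ∑ k, if al ψ v = some k then ψ k (v k) else 0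
  have hβ : ∀ v, 0 ≤ β v := fun v => sum_nonneg fun k _ => by
    split_ifs with h
    exacts [((al_iff ψ).1 h).1.le, le_rfl]
  have hβ2 : ∀ v c k, 0 ≤ c → c < ψ k (v k) → c < β v := fun v c k hc h => by
    obtain ⟨l, -, hl⟩ := exists_max_image univ (fun j => toLex (ψ j (v j), j)) ⟨k, mem_univ _⟩
    have a : ψ k (v k) ≤ ψ l (v l) := by
      rcases Prod.Lex.toLex_le_toLex.1 (hl k (mem_univ _)) with h | h
      exacts [h.le, h.1.le]
    have b : al ψ v = some l := (al_iff ψ).2 ⟨by linarith, fun j hj =>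
      (hl j (mem_univ _)).lt_of_ne fun e => hj (congrArg (fun z => (ofLex z).2) e)⟩
    simp only [β, b, Option.some.injEq, sum_ite_eq, mem_univ, if_true]; linarith
  have low : Ex F β ≤ Rev F (opt ψ) := by
    change _ ≤ Ex F fun v => ∑ k, (opt ψ).p v k
    rw [Ex.sum, Ex.sum]
    refine sum_le_sum fun k _ => ?_
    rw [resample k (h1 k), resample k (h1 k) fun v => (opt ψ).p v k]
    refine Ex.mono hF fun v => ?_
    simp only [opt, al_thr ψ hψ, thr_update, update_self, mul_ite, mul_zero]
    rcases thr_spec (al ψ) k v with h | ⟨t, t1, t2⟩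
    · exact sum_le_sum fun x _ => by rw [if_neg (by have := x.2; omega), if_neg (by have := x.2; omega)]
    · have := (hP k t).2 fun x hx => (hψ k hx.le).lt_of_ne fun e => by
        have := thr_le ((al_iff ψ).2 (win_of_le ψ e.ge ((al_iff ψ).1 t2)))
        have : (x : ℕ) < t := hx
        omega
      simp only [tail, t1, mul_sum, mul_ite, mul_zero] at this
      simpa only [mul_comm] using this
  let q : Fin n → Pf n m → ℝ := fun k v => ∑ x, F k x * if star M.f (update v k x) = some k then 1 else 0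
  let r : Fin n → Pf n m → ℝ := fun k v => q k v / tail (F k) (thr M.f k v)
  have q0 : ∀ k v, 0 ≤ q k v := fun k v => sum_nonneg fun x _ => mul_nonneg (hF k x).le (by split_ifs <;> norm_num)
  have q1 : ∀ k v, q k v ≤ tail (F k) (thr M.f k v) := fun k v => sum_le_sum fun x _ => by
    by_cases h : star M.f (update v k x) = some k
    · have := (star_spec h).1
      rw [thr_update, update_self] at this
      simp [h, this]
    · simp only [h, if_false, mul_zero]; split_ifs; exacts [(hF k x).le, le_rfl]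
  have r0 : ∀ k v, 0 ≤ r k v := fun k v => div_nonneg (q0 k v) ((q0 k v).trans (q1 k v))
  have r1 : ∀ k v, r k v ≤ 1 := fun k v => div_le_one_of_le₀ (q1 k v) ((q0 k v).trans (q1 k v))
  have r2 : ∀ k v, r k v * tail (F k) (thr M.f k v) = q k v := fun k v => by
    rcases ((q0 k v).trans (q1 k v)).eq_or_lt with h | h
    · rw [← h, mul_zero]; exact le_antisymm (q0 k v) (h ▸ q1 k v)
    · exact div_mul_cancel₀ _ h.ne'
  have e : ∀ G : Fin n → Fin (m + 1) → ℝ, ∑ i : Fin n × Pf n m × Fin (m + 1), ((∏ j, F j (i.2.1 j)) *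
      (r i.1 i.2.1 * if thr M.f i.1 i.2.1 ≤ i.2.2 then F i.1 i.2.2 else 0)) * G i.1 i.2.2 =
      ∑ k, Ex F fun v => r k v * tail (fun x => F k x * G k x) (thr M.f k v) := fun G => by
    simp only [Fintype.sum_prod_type, Ex, tail, mul_sum, mul_assoc, ite_mul, zero_mul]
  have mid := layer (fun i : Fin n × Pf n m × Fin (m + 1) => (∏ j, F j (i.2.1 j)) *
      (r i.1 i.2.1 * if thr M.f i.1 i.2.1 ≤ i.2.2 then F i.1 i.2.2 else 0)) (fun i => max (ψ i.1 i.2.2) 0)
    (fun v : Pf n m => ∏ j, F j (v j)) β (fun _ => le_max_right _ _) hβ fun c hc => by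
      rw [e fun k x => if c < max (ψ k x) 0 then 1 else 0]
      refine (border hF h1 M.f (fun k x => c < ψ k x) (fun k x y h a => a.trans_le (hψ k h)) _ (fun k v => ?_)
        fun k v => ?_).trans (Ex.mono hF fun v => ?_)
      · refine le_trans (mul_le_mul_of_nonneg_left (sum_le_sum fun x _ => ?_) (r0 k v)) (r2 k v).le
        have := (hF k x).le
        simp only [mul_ite, mul_one, mul_zero]
        split_ifs <;> simp [this]
      · refine (mul_le_of_le_one_left (sum_nonneg fun x _ => ?_) (r1 k v)).trans (sum_le_sum fun x _ => ?_)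
        · have := (hF k x).le
          simp only [mul_ite, mul_one, mul_zero]
          split_ifs <;> simp [this]
        · have := (hF k x).le
          simp only [lt_max_iff, not_lt.2 hc, or_false]
          split_ifs <;> simp [this]
      · by_cases h : ∃ k, c < ψ k (v k)
        · rw [if_pos h, if_pos (hβ2 v c _ hc h.choose_spec)]
        · rw [if_neg h]; split_ifs <;> norm_num
  rw [e fun k x => max (ψ k x) 0] at mid
  refine le_trans ?_ (mid.trans low)
  refine (Ex.mono hF (pay_le hα hM)).trans ?_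
  rw [Ex.sum]
  refine sum_le_sum fun k _ => ?_
  rw [resample k (h1 k)]
  refine Ex.mono hF fun v => ?_
  have a : (thr M.f k v : ℝ) / m * tail (F k) (thr M.f k v) ≤
      tail (fun x => F k x * max (ψ k x) 0) (thr M.f k v) := by
    rcases thr_spec M.f k v with h | ⟨t, t1, -⟩
    · simp [h, tail_top]
    · rw [← t1]
      refine (hP k t).1.trans (sum_le_sum fun x _ => ?_)
      split_ifs
      exacts [mul_le_mul_of_nonneg_left (le_max_left _ _) (hF k x).le, le_rfl]
  refine le_trans (le_of_eq ?_) (mul_le_mul_of_nonneg_left a (r0 k v))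
  rw [mul_left_comm, r2]
  simp only [q, thr_update, mul_sum, mul_ite, mul_one, mul_zero]
  exact sum_congr rfl fun x _ => by rw [mul_comm]

end Pool.Agent.Results.MP_e3b71d_lc.Equal
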